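import Pool.Agent.W259.GS.Pack
import Pool.Agent.H367R3.GSForest

/-!
# Combination with the theorem for graphs without large half-graphs
-/

namespace Pool.Agent.W259.GS

open Finset

/-- Gluing colourings of the colour classes. -/
theorem colorable_of_classes {V : Type} (G : SimpleGraph V) {C D : ℕ} (c : V → Fin C)
    (h : ∀ i : Fin C, (G.induce {v | c v = i}).Colorable D) : G.Colorable (C * D) := by
  have d : ∀ i : Fin C, (G.induce {v | c v = i}).Coloring (Fin D) := fun i =>
    Classical.choice (h i)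
  have hcol : G.Colorable (Fintype.card (Fin C × Fin D)) := by
    apply SimpleGraph.Coloring.colorable
    refine SimpleGraph.Coloring.mk (fun v => (c v, d (c v) ⟨v, rfl⟩)) ?_
    intro u v huv hc
    have h1 : c u = c v := congrArg Prod.fst hc
    have h2 : d (c u) ⟨u, rfl⟩ = d (c v) ⟨v, rfl⟩ := congrArg Prod.snd hc
    have h3 : ∀ (i : Fin C) (hi : c v = i), d (c v) ⟨v, rfl⟩ = d i ⟨v, hi⟩ := by
      intro i hi
      subst hi
      rfl
    rw [h3 (c u) h1.symm] at h2
    exact (d (c u)).valid (v := ⟨u, rfl⟩) (w := ⟨v, h1.symm⟩) huv h2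
  rw [Fintype.card_prod, Fintype.card_fin, Fintype.card_fin] at hcol
  exact hcol

theorem comb {m : ℕ} (F : SimpleGraph (Fin m)) (hF : F.IsAcyclic) (k n : ℕ) (ε : ℝ)
    (hε : 0 < ε) : ∃ C : ℕ, ∀ (V : Type) [Fintype V] (G : SimpleGraph V) (w : V → ℝ),
    (∀ v, 0 ≤ w v) → ∑ v, w v = 1 → G.CliqueFree (k + 1) → IsEmpty (F ↪g G) →
    (∀ a b : Fin n → V, (∀ i j, G.Adj (a i) (b j) ↔ i ≤ j) →
      ∃ u v, (u ∈ Set.range a ∨ u ∈ Set.range b) ∧ (v ∈ Set.range a ∨ v ∈ Set.range b) ∧
        G.Adj u v ∧ ∃ Q : Finset V, G.IsClique (Q : Set V) ∧ (∀ z, ∃ q ∈ Q, ¬ G.Adj q z) ∧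
          u ∈ Q ∧ v ∈ Q ∧ ε ≤ exch G w Q u) →
    G.Colorable C := by
  obtain ⟨C, hC⟩ := main F hF.colorable_two k ε hε
  obtain ⟨f, hf⟩ := Pool.Agent.H367R3.gyarfas_sumner_forest.{0} n m F hF
  refine ⟨C * ((Finset.range (k + 1)).sup f), ?_⟩
  intro V _ G w hw hsum hfree hemp hhalf
  obtain ⟨c, hc⟩ := hC V G w hw hsum hfree hemp
  apply colorable_of_classes G c
  intro i
  have h1 : (G.induce {v | c v = i}).chromaticNumber ≤ f (G.induce {v | c v = i}).cliqueNum := by
    apply hf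
    · rintro ⟨a, b, hab⟩
      obtain ⟨u, v, hu, hv, huv, Q, hQ, hQm, huQ, hvQ, hge⟩ :=
        hhalf (fun x => (a x : V)) (fun x => (b x : V)) (fun x y => hab x y)
      have hcu : c u = i := by
        rcases hu with ⟨x, rfl⟩ | ⟨x, rfl⟩
        · exact (a x).2
        · exact (b x).2
      have hcv : c v = i := by
        rcases hv with ⟨x, rfl⟩ | ⟨x, rfl⟩
        · exact (a x).2
        · exact (b x).2
      have := (hc u v huv (hcu.trans hcv.symm) Q hQ hQm huQ hvQ).1
      linarith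
    · rintro ⟨e⟩
      exact hemp.false (e.trans (SimpleGraph.Embedding.induce _))
  have h2 : (G.induce {v | c v = i}).cliqueNum ≤ k := by
    obtain ⟨s, hs⟩ := (G.induce {v | c v = i}).exists_isNClique_cliqueNum
    by_contra hgt
    push Not at hgt
    have h3 : (G.induce {v | c v = i}).CliqueFree (k + 1) := hfree.comap
      ⟨(SimpleGraph.Embedding.induce _).toCopy⟩
    exact (h3.mono hgt) s hs
  have h3 : f (G.induce {v | c v = i}).cliqueNum ≤ (Finset.range (k + 1)).sup f :=
    Finset.le_sup (f := f) (Finset.mem_range.2 (by omega))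
  rw [← SimpleGraph.chromaticNumber_le_iff_colorable]
  exact h1.trans (by exact_mod_cast h3)

end Pool.Agent.W259.GS
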