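import Pool.Agent.W259.GS.Shatter

/-!
# Packing neighbourhoods
-/

namespace Pool.Agent.W259.GS

open Finset

open Classical in
/-- weight of the symmetric difference of two neighbourhoods -/
noncomputable def nd {V : Type} [Fintype V] (G : SimpleGraph V) (w : V → ℝ) (u v : V) : ℝ :=
  ∑ z, if (G.Adj u z ↔ G.Adj v z) then 0 else w z

theorem nd_symm {V : Type} [Fintype V] (G : SimpleGraph V) (w : V → ℝ) (u v : V) :
    nd G w u v = nd G w v u := by
  unfold nd
  apply Finset.sum_congr rfl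
  intro z _
  by_cases h : (G.Adj u z ↔ G.Adj v z)
  · rw [if_pos h, if_pos h.symm]
  · rw [if_neg h, if_neg (fun h' => h h'.symm)]

theorem nd_tri {V : Type} [Fintype V] (G : SimpleGraph V) (w : V → ℝ) (hw : ∀ v, 0 ≤ w v)
    (u v a : V) : nd G w u v ≤ nd G w u a + nd G w v a := by
  unfold nd
  rw [← Finset.sum_add_distrib]
  apply Finset.sum_le_sum
  intro z _
  have := hw z
  by_cases h1 : G.Adj u z <;> by_cases h2 : G.Adj v z <;> by_cases h3 : G.Adj a z <;>
    simp [h1, h2, h3, this]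

theorem nd_self {V : Type} [Fintype V] (G : SimpleGraph V) (w : V → ℝ) (u : V) :
    nd G w u u = 0 := by
  unfold nd
  simp

/-- There are boundedly many vertices with pairwise far neighbourhoods. -/
theorem packing (N : ℕ) (δ : ℝ) (hδ : 0 < δ) : ∃ M : ℕ, ∀ (V : Type) [Fintype V]
    (G : SimpleGraph V) (w : V → ℝ), (∀ v, 0 ≤ w v) → ∑ v, w v = 1 →
    (∀ X : Finset V, Sh G X Set.univ → X.card < N) →
    ∀ U : Finset V, (∀ u ∈ U, ∀ v ∈ U, u ≠ v → δ ≤ nd G w u v) → U.card < M := by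
  classical
  set r : ℝ := max 0 (1 - δ) with hr
  have hr0 : 0 ≤ r := le_max_left _ _
  have hr1 : r < 1 := max_lt one_pos (by linarith)
  obtain ⟨n, hn⟩ := poly_geom (((N : ℝ) + 1) ^ 2) (N * 2) r hr0 hr1
  refine ⟨N * (n + 1) ^ N + 1, ?_⟩
  intro V _ G w hw hsum hsh U hU
  by_contra hge
  push Not at hge
  obtain ⟨U', hU', hU'c⟩ := Finset.exists_subset_card_eq hge
  -- the constant
  have hM : ((N * (n + 1) ^ N + 1 : ℕ) : ℝ) ^ 2 * r ^ n < 1 := by
    refine lt_of_le_of_lt ?_ hn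
    have h1 : ((N * (n + 1) ^ N + 1 : ℕ) : ℝ) ≤ ((N : ℝ) + 1) * ((n : ℝ) + 1) ^ N := by
      push_cast
      have : (1 : ℝ) ≤ ((n : ℝ) + 1) ^ N := one_le_pow₀ (by linarith [Nat.cast_nonneg (α := ℝ) n])
      nlinarith
    have h2 : ((N * (n + 1) ^ N + 1 : ℕ) : ℝ) ^ 2 ≤ (((N : ℝ) + 1) * ((n : ℝ) + 1) ^ N) ^ 2 :=
      pow_le_pow_left₀ (Nat.cast_nonneg _) h1 2
    calc ((N * (n + 1) ^ N + 1 : ℕ) : ℝ) ^ 2 * r ^ n
        ≤ (((N : ℝ) + 1) * ((n : ℝ) + 1) ^ N) ^ 2 * r ^ n :=
          mul_le_mul_of_nonneg_right h2 (pow_nonneg hr0 n)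
      _ = ((N : ℝ) + 1) ^ 2 * ((n : ℝ) + 1) ^ (N * 2) * r ^ n := by
          rw [mul_pow, ← pow_mul]
  -- a good sample
  have hsample : ∃ f : Fin n → V, ∀ u ∈ U', ∀ v ∈ U', u ≠ v →
      ∃ t, ¬ (G.Adj u (f t) ↔ G.Adj v (f t)) := by
    by_contra hno
    push Not at hno
    set W : V × V → V → ℝ := fun p z => if (G.Adj p.1 z ↔ G.Adj p.2 z) then w z else 0 with hW
    have hW0 : ∀ p z, 0 ≤ W p z := by
      intro p z
      simp only [hW]
      split_ifs
      · exact hw z
      · exact le_rfl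
    have hWsum : ∀ p ∈ U'.offDiag, ∑ z, W p z ≤ r := by
      intro p hp
      obtain ⟨h1, h2, h3⟩ := Finset.mem_offDiag.1 hp
      have h4 : ∑ z, W p z + nd G w p.1 p.2 = 1 := by
        unfold nd
        rw [← hsum, ← Finset.sum_add_distrib]
        apply Finset.sum_congr rfl
        intro z _
        simp only [hW]
        split_ifs <;> simp
      have h5 := hU p.1 (hU' h1) p.2 (hU' h2) h3
      have : ∑ z, W p z ≤ 1 - δ := by linarith
      exact this.trans (le_max_right _ _)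
    have h1 : (1 : ℝ) ≤ ∑ p ∈ U'.offDiag, (∑ z, W p z) ^ n := by
      have e1 : (1 : ℝ) = ∑ f : Fin n → V, ∏ t, w (f t) := by
        rw [← Fintype.sum_pow, hsum, one_pow]
      have e2 : ∑ p ∈ U'.offDiag, (∑ z, W p z) ^ n =
          ∑ f : Fin n → V, ∑ p ∈ U'.offDiag, ∏ t, W p (f t) := by
        rw [Finset.sum_comm]
        apply Finset.sum_congr rfl
        intro p _
        rw [Fintype.sum_pow]
      rw [e2, e1]
      apply Finset.sum_le_sum
      intro f _
      obtain ⟨u, hu, v, hv, huv, hall⟩ := hno f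
      have hmem : (u, v) ∈ U'.offDiag := Finset.mem_offDiag.2 ⟨hu, hv, huv⟩
      have h2 : ∏ t, w (f t) = ∏ t, W (u, v) (f t) := by
        apply Finset.prod_congr rfl
        intro t _
        simp only [hW]
        rw [if_pos (hall t)]
      rw [h2]
      exact Finset.single_le_sum (f := fun p => ∏ t, W p (f t))
        (fun p _ => Finset.prod_nonneg (fun t _ => hW0 p (f t))) hmem
    have h2 : ∑ p ∈ U'.offDiag, (∑ z, W p z) ^ n ≤ ∑ _p ∈ U'.offDiag, r ^ n := by
      apply Finset.sum_le_sum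
      intro p hp
      exact pow_le_pow_left₀ (Finset.sum_nonneg (fun z _ => hW0 p z)) (hWsum p hp) n
    rw [Finset.sum_const, nsmul_eq_mul] at h2
    have h3 : ((U'.offDiag.card : ℕ) : ℝ) ≤ ((N * (n + 1) ^ N + 1 : ℕ) : ℝ) ^ 2 := by
      rw [← hU'c]
      have : U'.offDiag.card ≤ U'.card ^ 2 := by
        rw [Finset.offDiag_card, sq]
        exact Nat.sub_le _ _
      exact_mod_cast this
    have h4 : ((U'.offDiag.card : ℕ) : ℝ) * r ^ n ≤ ((N * (n + 1) ^ N + 1 : ℕ) : ℝ) ^ 2 * r ^ n :=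
      mul_le_mul_of_nonneg_right h3 (pow_nonneg hr0 n)
    linarith
  obtain ⟨f, hf⟩ := hsample
  set S : Finset V := Finset.univ.image f with hS
  have hSc : S.card ≤ n := by
    calc S.card ≤ (Finset.univ : Finset (Fin n)).card := Finset.card_image_le
      _ = n := by simp
  set 𝒜 : Finset (Finset V) := U'.image (fun u => S.filter (fun z => G.Adj u z)) with h𝒜
  have hinj : Set.InjOn (fun u => S.filter (fun z => G.Adj u z)) (U' : Set V) := by
    intro u hu v hv huv
    by_contra hne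
    obtain ⟨t, ht⟩ := hf u hu v hv hne
    apply ht
    have hmem : f t ∈ S := Finset.mem_image_of_mem f (Finset.mem_univ t)
    have h1 : (f t ∈ S.filter (fun z => G.Adj u z)) ↔ (f t ∈ S.filter (fun z => G.Adj v z)) := by
      dsimp only at huv
      rw [huv]
    rw [Finset.mem_filter, Finset.mem_filter] at h1
    exact ⟨fun h => (h1.1 ⟨hmem, h⟩).2, fun h => (h1.2 ⟨hmem, h⟩).2⟩
  have h𝒜c : 𝒜.card = N * (n + 1) ^ N + 1 := by
    rw [h𝒜, Finset.card_image_of_injOn hinj, hU'c]
  have hlt : N * (S.card + 1) ^ N < 𝒜.card := by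
    rw [h𝒜c]
    have : N * (S.card + 1) ^ N ≤ N * (n + 1) ^ N :=
      Nat.mul_le_mul_left _ (Nat.pow_le_pow_left (by omega) _)
    omega
  obtain ⟨X, hXS, hXc, hXs⟩ := sauer S 𝒜 (by
    intro A hA
    obtain ⟨u, _, rfl⟩ := Finset.mem_image.1 hA
    exact Finset.filter_subset _ _) N hlt
  have hShX : Sh G X Set.univ := by
    intro A hA
    obtain ⟨B, hB, hBe⟩ := hXs hA
    obtain ⟨u, _, rfl⟩ := Finset.mem_image.1 hB
    refine ⟨u, Set.mem_univ _, fun x hx => ?_⟩
    rw [← hBe, Finset.mem_inter, Finset.mem_filter]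
    exact ⟨fun h => ⟨hx, hXS hx, h⟩, fun h => h.2.2⟩
  have := hsh X hShX
  omega

open Classical in
/-- The total weight of the vertices which are adjacent to all members of `Q` other than `v`. -/
noncomputable def exch {V : Type} [Fintype V] (G : SimpleGraph V) (w : V → ℝ) (Q : Finset V)
    (v : V) : ℝ :=
  ∑ z, if (∀ q ∈ Q, q ≠ v → G.Adj q z) then w z else 0

theorem main {α : Type} [Fintype α] (F : SimpleGraph α) (hF : F.Colorable 2) (k : ℕ) (ε : ℝ)
    (hε : 0 < ε) : ∃ C : ℕ, ∀ (V : Type) [Fintype V] (G : SimpleGraph V) (w : V → ℝ),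
    (∀ v, 0 ≤ w v) → ∑ v, w v = 1 → G.CliqueFree (k + 1) → IsEmpty (F ↪g G) →
    ∃ c : V → Fin C, ∀ u v, G.Adj u v → c u = c v → ∀ Q : Finset V, G.IsClique (Q : Set V) →
      (∀ z, ∃ q ∈ Q, ¬ G.Adj q z) → u ∈ Q → v ∈ Q → exch G w Q u < ε ∧ exch G w Q v < ε := by
  classical
  obtain ⟨N, hN⟩ := noShatter F hF (k + 1)
  obtain ⟨M, hM⟩ := packing N (ε / 2) (by linarith)
  refine ⟨M, ?_⟩
  intro V _ G w hw hsum hfree hemp
  -- maximal separated set
  obtain ⟨P, hP⟩ : ∃ P : Finset V → Prop, ∀ I, P I ↔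
      ∀ u ∈ I, ∀ v ∈ I, u ≠ v → ε / 2 ≤ nd G w u v := ⟨_, fun I => Iff.rfl⟩
  have hne : ((Finset.univ : Finset (Finset V)).filter P).Nonempty :=
    ⟨∅, Finset.mem_filter.2 ⟨Finset.mem_univ _, (hP ∅).2 (by simp)⟩⟩
  obtain ⟨U, hU, hmax⟩ := Finset.exists_max_image _ Finset.card hne
  have hUs := (hP U).1 (Finset.mem_filter.1 hU).2
  have hUc : U.card < M := hM V G w hw hsum (fun X hX => hN V G X hfree hemp hX) U hUs
  have hnear : ∀ v, ∃ a : U, nd G w v a < ε / 2 := by
    intro v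
    by_cases hv : v ∈ U
    · exact ⟨⟨v, hv⟩, by rw [nd_self]; linarith⟩
    · by_contra hno
      push Not at hno
      have h2 : insert v U ∈ (Finset.univ : Finset (Finset V)).filter P := by
        rw [Finset.mem_filter, hP]
        refine ⟨Finset.mem_univ _, ?_⟩
        intro a ha b hb hab
        rcases Finset.mem_insert.1 ha with h3 | h3
        · rcases Finset.mem_insert.1 hb with h4 | h4
          · exact absurd (h3.trans h4.symm) hab
          · rw [h3]; exact hno ⟨b, h4⟩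
        · rcases Finset.mem_insert.1 hb with h4 | h4
          · rw [h4, nd_symm]; exact hno ⟨a, h3⟩
          · exact hUs a h3 b h4 hab
      have h3 := hmax _ h2
      rw [Finset.card_insert_of_notMem hv] at h3
      omega
  choose c0 hc0 using hnear
  have e : U ≃ Fin U.card := U.equivFin
  refine ⟨fun v => Fin.castLE hUc.le (e (c0 v)), ?_⟩
  have key : ∀ u v, nd G w u v < ε → ∀ Q : Finset V, G.IsClique (Q : Set V) →
      (∀ z, ∃ q ∈ Q, ¬ G.Adj q z) → u ∈ Q → v ∈ Q → u ≠ v → exch G w Q v < ε := by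
    intro u v hnd Q hQ hQmax hu hv huv
    by_contra hge
    push Not at hge
    -- some z is adjacent to all of Q \ v and is not in the symmetric difference
    have h1 : ∃ z, (∀ q ∈ Q, q ≠ v → G.Adj q z) ∧ (G.Adj u z ↔ G.Adj v z) := by
      by_contra hno
      push Not at hno
      have h2 : exch G w Q v ≤ nd G w u v := by
        unfold exch nd
        apply Finset.sum_le_sum
        intro z _
        by_cases h3 : ∀ q ∈ Q, q ≠ v → G.Adj q z
        · rw [if_pos h3]
          have h4 : ¬ (G.Adj u z ↔ G.Adj v z) := by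
            intro h5
            rcases hno z h3 with h6 | h6
            · exact h6.2 (h5.1 h6.1)
            · exact h6.1 (h5.2 h6.2)
          rw [if_neg h4]
        · rw [if_neg h3]
          split_ifs
          · exact le_rfl
          · exact hw z
      linarith
    obtain ⟨z, hz1, hz2⟩ := h1
    obtain ⟨q, hq, hqz⟩ := hQmax z
    apply hqz
    by_cases hqv : q = v
    · rw [hqv]
      exact hz2.1 (hz1 u hu huv)
    · exact hz1 q hq hqv
  intro u v huv hc Q hQ hQmax hu hv
  have hcc : c0 u = c0 v := by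
    apply e.injective
    have := congrArg Fin.val hc
    simp only [Fin.val_castLE] at this
    exact Fin.ext this
  have hnd : nd G w u v < ε := by
    have h1 := nd_tri G w hw u v (c0 u)
    have h2 := hc0 u
    have h3 := hc0 v
    rw [← hcc] at h3
    linarith
  refine ⟨?_, ?_⟩
  · exact key v u (by rw [nd_symm]; exact hnd) Q hQ hQmax hv hu huv.ne.symm
  · exact key u v hnd Q hQ hQmax hu hv huv.ne

end Pool.Agent.W259.GS
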