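import Mathlib

/-!
# Shattered sets in graphs without large cliques and without an induced bipartite graph
-/

namespace Pool.Agent.W259.GS

open Finset

/-- The neighbourhoods of the vertices in `Y` cut out every subset of `X`. -/
def Sh {V : Type} (G : SimpleGraph V) (X : Finset V) (Y : Set V) : Prop :=
  ∀ A ⊆ X, ∃ y ∈ Y, ∀ x ∈ X, (G.Adj y x ↔ x ∈ A)

theorem Sh.mono {V : Type} {G : SimpleGraph V} {X X' : Finset V} {Y : Set V}
    (h : Sh G X Y) (hX : X' ⊆ X) : Sh G X' Y := by
  intro A hA
  obtain ⟨y, hy, h1⟩ := h A (hA.trans hX)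
  exact ⟨y, hy, fun x hx => h1 x (hX hx)⟩

/-- Weak form of the Sauer-Shelah lemma. -/
theorem sauer {V : Type} [DecidableEq V] (S : Finset V) (𝒜 : Finset (Finset V))
    (h𝒜 : ∀ A ∈ 𝒜, A ⊆ S) (N : ℕ) (h : N * (S.card + 1) ^ N < 𝒜.card) :
    ∃ X ⊆ S, X.card = N ∧ 𝒜.Shatters X := by
  by_contra hcon
  push Not at hcon
  have hsub : ∀ X, 𝒜.Shatters X → X ⊆ S := by
    intro X hX
    obtain ⟨t, ht, hXt⟩ := hX.exists_superset
    exact hXt.trans (h𝒜 t ht)
  have hlt : ∀ X, 𝒜.Shatters X → X.card < N := by
    intro X hX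
    by_contra hge
    push Not at hge
    obtain ⟨X', hX', hc⟩ := Finset.exists_subset_card_eq hge
    exact hcon X' (hX'.trans (hsub X hX)) hc (hX.mono_right hX')
  have h1 : 𝒜.shatterer ⊆ (Finset.range N).biUnion (fun i => S.powersetCard i) := by
    intro X hX
    rw [Finset.mem_shatterer] at hX
    rw [Finset.mem_biUnion]
    exact ⟨X.card, Finset.mem_range.2 (hlt X hX), Finset.mem_powersetCard.2 ⟨hsub X hX, rfl⟩⟩
  have h2 : 𝒜.card ≤ ∑ i ∈ Finset.range N, (S.powersetCard i).card :=
    (Finset.card_le_card_shatterer 𝒜).trans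
      ((Finset.card_le_card h1).trans Finset.card_biUnion_le)
  have h3 : ∑ i ∈ Finset.range N, (S.powersetCard i).card ≤
      ∑ _i ∈ Finset.range N, (S.card + 1) ^ N := by
    apply Finset.sum_le_sum
    intro i hi
    rw [Finset.card_powersetCard]
    have hi' : i < N := Finset.mem_range.1 hi
    calc S.card.choose i ≤ S.card ^ i := Nat.choose_le_pow _ _
      _ ≤ (S.card + 1) ^ i := Nat.pow_le_pow_left (Nat.le_succ _) _
      _ ≤ (S.card + 1) ^ N := Nat.pow_le_pow_right (Nat.succ_pos _) hi'.le
  rw [Finset.sum_const, Finset.card_range, smul_eq_mul] at h3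
  omega

theorem poly_geom (C : ℝ) (s : ℕ) (r : ℝ) (h0 : 0 ≤ r) (h1 : r < 1) :
    ∃ n : ℕ, C * ((n : ℝ) + 1) ^ s * r ^ n < 1 := by
  rcases h0.eq_or_lt with h | h
  · refine ⟨1, ?_⟩
    rw [← h]
    norm_num
  · have h2 := tendsto_pow_const_mul_const_pow_of_abs_lt_one s
      (show |r| < 1 by rw [abs_of_pos h]; exact h1)
    have h3 := (Filter.tendsto_add_atTop_iff_nat 1).2 h2
    have h4 := h3.const_mul (C / r)
    rw [mul_zero] at h4
    obtain ⟨n, hn⟩ := (h4.eventually (gt_mem_nhds (show (0 : ℝ) < 1 by norm_num))).exists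
    refine ⟨n, ?_⟩
    have h5 : C / r * (((n + 1 : ℕ) : ℝ) ^ s * r ^ (n + 1)) = C * ((n : ℝ) + 1) ^ s * r ^ n := by
      push_cast
      rw [pow_succ r n]
      field_simp
    rw [← h5]
    exact hn

theorem pow_dom (a b s : ℕ) : ∃ n : ℕ, a * (b * (n + 1) ^ s) < 2 ^ n := by
  obtain ⟨n, hn⟩ := poly_geom ((a : ℝ) * b) s (1 / 2) (by norm_num) (by norm_num)
  refine ⟨n, ?_⟩
  have h2 : (0 : ℝ) < 2 ^ n := by positivity
  have h3 : ((a : ℝ) * b) * ((n : ℝ) + 1) ^ s < 2 ^ n := by
    rw [one_div, inv_pow] at hn
    have := mul_lt_mul_of_pos_right hn h2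
    rw [mul_assoc, inv_mul_cancel₀ h2.ne', mul_one, one_mul] at this
    exact this
  have h4 : ((a * (b * (n + 1) ^ s) : ℕ) : ℝ) < ((2 ^ n : ℕ) : ℝ) := by
    push_cast
    rw [← mul_assoc]
    exact h3
  exact_mod_cast h4

/-- In a graph without large cliques a large shattered set contains a shattered set which is cut
out by an independent set of vertices. -/
theorem indepShatter (k : ℕ) : ∀ m : ℕ, ∃ N : ℕ, ∀ (V : Type) (G : SimpleGraph V) (X : Finset V)
    (Y : Set V), N ≤ X.card → Sh G X Y → G.CliqueFreeOn Y k →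
    ∃ X' : Finset V, X' ⊆ X ∧ X'.card = m ∧ ∃ Y' : Set V, Y' ⊆ Y ∧ Sh G X' Y' ∧
      ∀ y ∈ Y', ∀ y' ∈ Y', ¬ G.Adj y y' := by
  induction k with
  | zero =>
    intro m
    refine ⟨0, ?_⟩
    intro V G X Y _ _ hf
    exfalso
    exact hf (t := ∅) (by simp) (by simp [SimpleGraph.isNClique_iff])
  | succ k ih =>
    intro m
    obtain ⟨s, hs⟩ := ih m
    obtain ⟨n, hn⟩ := pow_dom (2 ^ m) s s
    refine ⟨n + m, ?_⟩
    intro V G X Y hcard hSh hf
    classical
    obtain ⟨X1, hX1, hX1c⟩ := Finset.exists_subset_card_eq (show n ≤ X.card by omega)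
    have hXd : m ≤ (X \ X1).card := by
      rw [Finset.card_sdiff_of_subset hX1]
      omega
    obtain ⟨X2, hX2, hX2c⟩ := Finset.exists_subset_card_eq hXd
    have hX2X : X2 ⊆ X := hX2.trans Finset.sdiff_subset
    have hdisj : ∀ x ∈ X2, x ∉ X1 := fun x hx => (Finset.mem_sdiff.1 (hX2 hx)).2
    by_contra hcon
    have key : ∀ T : Finset (Finset V), T ⊆ X2.powerset → ∃ g : Finset V → V,
        (∀ B ∈ T, g B ∈ Y ∧ ∀ x ∈ X2, (G.Adj (g B) x ↔ x ∈ B)) ∧
        (∀ B ∈ T, ∀ B' ∈ T, ¬ G.Adj (g B) (g B')) := by
      intro T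
      induction T using Finset.induction_on with
      | empty =>
        intro _
        obtain ⟨y, _, _⟩ := hSh ∅ (Finset.empty_subset _)
        exact ⟨fun _ => y, by simp, by simp⟩
      | insert B0 T hB0 ihT =>
        intro hT
        obtain ⟨g, hg1, hg2⟩ := ihT ((Finset.subset_insert _ _).trans hT)
        have hB0X : B0 ⊆ X2 := Finset.mem_powerset.1 (hT (Finset.mem_insert_self _ _))
        by_cases h : ∃ z ∈ Y, (∀ x ∈ X2, (G.Adj z x ↔ x ∈ B0)) ∧ ∀ B ∈ T, ¬ G.Adj z (g B)
        · obtain ⟨z, hzY, hz1, hz2⟩ := h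
          have hne : ∀ B ∈ T, B ≠ B0 := fun B hB hBe => hB0 (hBe ▸ hB)
          refine ⟨Function.update g B0 z, ?_, ?_⟩
          · intro B hB
            rcases Finset.mem_insert.1 hB with rfl | hB'
            · rw [Function.update_self]
              exact ⟨hzY, hz1⟩
            · rw [Function.update_of_ne (hne B hB')]
              exact hg1 B hB'
          · intro B hB B' hB'
            rcases Finset.mem_insert.1 hB with h1 | h1
            · rcases Finset.mem_insert.1 hB' with h2 | h2
              · rw [h1, h2]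
                exact G.loopless.irrefl _
              · rw [h1, Function.update_self, Function.update_of_ne (hne B' h2)]
                exact hz2 B' h2
            · rcases Finset.mem_insert.1 hB' with h2 | h2
              · rw [h2, Function.update_self, Function.update_of_ne (hne B h1)]
                exact fun hh => hz2 B h1 hh.symm
              · rw [Function.update_of_ne (hne B h1), Function.update_of_ne (hne B' h2)]
                exact hg2 B h1 B' h2
        · exfalso
          push Not at h
          set fam : Finset V → Finset (Finset V) := fun B => X1.powerset.filter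
            (fun A => ∃ y ∈ Y, (∀ x ∈ X1, (G.Adj y x ↔ x ∈ A)) ∧ G.Adj (g B) y) with hfam
          have hcov : X1.powerset ⊆ T.biUnion fam := by
            intro A hA
            have hA' : A ⊆ X1 := Finset.mem_powerset.1 hA
            obtain ⟨y, hyY, hy⟩ := hSh (A ∪ B0)
              (Finset.union_subset (hA'.trans hX1) (hB0X.trans hX2X))
            have hy2 : ∀ x ∈ X2, (G.Adj y x ↔ x ∈ B0) := by
              intro x hx
              rw [hy x (hX2X hx), Finset.mem_union]
              constructor
              · rintro (h1 | h1)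
                · exact absurd (hA' h1) (hdisj x hx)
                · exact h1
              · exact Or.inr
            have hy1 : ∀ x ∈ X1, (G.Adj y x ↔ x ∈ A) := by
              intro x hx
              rw [hy x (hX1 hx), Finset.mem_union]
              constructor
              · rintro (h1 | h1)
                · exact h1
                · exact absurd hx (hdisj x (hB0X h1))
              · exact Or.inl
            obtain ⟨B, hB, hadj⟩ := h y hyY hy2
            rw [Finset.mem_biUnion]
            exact ⟨B, hB, Finset.mem_filter.2 ⟨hA, y, hyY, hy1, hadj.symm⟩⟩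
          have hTc : T.card ≤ 2 ^ m := by
            have := Finset.card_le_card ((Finset.subset_insert B0 T).trans hT)
            rwa [Finset.card_powerset, hX2c] at this
          have hbig : ∃ B ∈ T, s * (n + 1) ^ s < (fam B).card := by
            by_contra hsm
            push Not at hsm
            have h1 : 2 ^ n ≤ T.card * (s * (n + 1) ^ s) := by
              calc 2 ^ n = X1.powerset.card := by rw [Finset.card_powerset, hX1c]
                _ ≤ (T.biUnion fam).card := Finset.card_le_card hcov
                _ ≤ T.card * (s * (n + 1) ^ s) := Finset.card_biUnion_le_card_mul _ _ _ hsm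
            have h2 : T.card * (s * (n + 1) ^ s) ≤ 2 ^ m * (s * (n + 1) ^ s) :=
              Nat.mul_le_mul_right _ hTc
            omega
          obtain ⟨B, hB, hBc⟩ := hbig
          obtain ⟨X3, hX3, hX3c, hX3s⟩ := sauer X1 (fam B)
            (fun A hA => Finset.mem_powerset.1 (Finset.mem_filter.1 hA).1) s
            (by rw [hX1c]; exact hBc)
          apply hcon
          have hfree : G.CliqueFreeOn (Y ∩ {y | G.Adj (g B) y}) k := by
            intro t ht hcl
            apply hf (t := insert (g B) t) _ (hcl.insert (fun b hb => (ht hb).2))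
            intro x hx
            rcases Finset.mem_insert.1 (Finset.mem_coe.1 hx) with rfl | hx'
            · exact (hg1 B hB).1
            · exact (ht hx').1
          have hSh3 : Sh G X3 (Y ∩ {y | G.Adj (g B) y}) := by
            intro A hA
            obtain ⟨u, hu, hue⟩ := hX3s hA
            obtain ⟨y, hyY, hy1, hy2⟩ := (Finset.mem_filter.1 hu).2
            refine ⟨y, ⟨hyY, hy2⟩, fun x hx => ?_⟩
            rw [hy1 x (hX3 hx), ← hue, Finset.mem_inter]
            exact ⟨fun h => ⟨hx, h⟩, fun h => h.2⟩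
          obtain ⟨X', hX', hX'c, Y', hY', hSh', hind⟩ := hs V G X3 _ (le_of_eq hX3c.symm) hSh3 hfree
          exact ⟨X', hX'.trans (hX3.trans hX1), hX'c, Y', hY'.trans Set.inter_subset_left,
            hSh', hind⟩
    obtain ⟨g, hg1, hg2⟩ := key X2.powerset (Finset.Subset.refl _)
    apply hcon
    refine ⟨X2, hX2X, hX2c, {y | ∃ B ∈ X2.powerset, g B = y}, ?_, ?_, ?_⟩
    · rintro y ⟨B, hB, rfl⟩
      exact (hg1 B hB).1
    · intro A hA
      exact ⟨g A, ⟨A, Finset.mem_powerset.2 hA, rfl⟩, (hg1 A (Finset.mem_powerset.2 hA)).2⟩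
    · rintro y ⟨B, hB, rfl⟩ y' ⟨B', hB', rfl⟩
      exact hg2 B hB B' hB'

/-- Ramsey's theorem in the form which is needed. -/
theorem ramsey (k : ℕ) : ∀ m : ℕ, ∃ R : ℕ, ∀ (V : Type) (G : SimpleGraph V) (X : Finset V),
    R ≤ X.card → G.CliqueFreeOn (X : Set V) k →
    ∃ X' : Finset V, X' ⊆ X ∧ X'.card = m ∧ ∀ x ∈ X', ∀ y ∈ X', ¬ G.Adj x y := by
  induction k with
  | zero =>
    intro m
    refine ⟨0, ?_⟩
    intro V G X _ hf
    exfalso
    exact hf (t := ∅) (by simp) (by simp [SimpleGraph.isNClique_iff])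
  | succ k ih =>
    intro m
    obtain ⟨R, hR⟩ := ih m
    refine ⟨m * (R + 1) + 1, ?_⟩
    intro V G X hcard hf
    classical
    by_contra hcon
    -- maximal independent subset
    obtain ⟨P, hP⟩ : ∃ P : Finset V → Prop, ∀ I, P I ↔ ∀ x ∈ I, ∀ y ∈ I, ¬ G.Adj x y :=
      ⟨fun I => ∀ x ∈ I, ∀ y ∈ I, ¬ G.Adj x y, fun I => Iff.rfl⟩
    have hne : (X.powerset.filter P).Nonempty :=
      ⟨∅, Finset.mem_filter.2 ⟨Finset.empty_mem_powerset _, (hP ∅).2 (by simp)⟩⟩
    obtain ⟨I, hI, hmax⟩ := Finset.exists_max_image _ Finset.card hne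
    obtain ⟨hIX, hIind⟩ := Finset.mem_filter.1 hI
    rw [hP] at hIind
    rw [Finset.mem_powerset] at hIX
    have hIm : I.card < m := by
      by_contra hge
      push Not at hge
      obtain ⟨I', hI', hc⟩ := Finset.exists_subset_card_eq hge
      exact hcon ⟨I', hI'.trans hIX, hc, fun x hx y hy => hIind x (hI' hx) y (hI' hy)⟩
    have hdom : X ⊆ I.biUnion (fun i => insert i (X.filter (fun x => G.Adj i x))) := by
      intro x hx
      rw [Finset.mem_biUnion]
      by_cases hxI : x ∈ I
      · exact ⟨x, hxI, Finset.mem_insert_self _ _⟩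
      · by_contra hno
        push Not at hno
        have h1 : ∀ i ∈ I, ¬ G.Adj i x := by
          intro i hi hadj
          exact hno i hi (Finset.mem_insert_of_mem (Finset.mem_filter.2 ⟨hx, hadj⟩))
        have h2 : insert x I ∈ X.powerset.filter P := by
          rw [Finset.mem_filter, Finset.mem_powerset, hP]
          refine ⟨Finset.insert_subset hx hIX, ?_⟩
          intro a ha b hb
          rcases Finset.mem_insert.1 ha with h3 | h3
          · rcases Finset.mem_insert.1 hb with h4 | h4
            · rw [h3, h4]; exact G.loopless.irrefl _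
            · rw [h3]; exact fun hh => h1 b h4 hh.symm
          · rcases Finset.mem_insert.1 hb with h4 | h4
            · rw [h4]; exact h1 a h3
            · exact hIind a h3 b h4
        have h3 := hmax _ h2
        rw [Finset.card_insert_of_notMem hxI] at h3
        omega
    have hsmall : ∀ i ∈ I, (insert i (X.filter (fun x => G.Adj i x))).card ≤ R + 1 := by
      intro i hi
      refine (Finset.card_insert_le _ _).trans ?_
      by_contra hge
      push Not at hge
      have hfree : G.CliqueFreeOn ((X.filter (fun x => G.Adj i x) : Finset V) : Set V) k := by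
        intro t ht hcl
        have ht' : ∀ b ∈ t, b ∈ X ∧ G.Adj i b := fun b hb => by
          have := ht (Finset.mem_coe.2 hb)
          simpa using this
        apply hf (t := insert i t) _ (hcl.insert (fun b hb => (ht' b hb).2))
        intro x hx
        rcases Finset.mem_insert.1 (Finset.mem_coe.1 hx) with rfl | hx'
        · exact Finset.mem_coe.2 (hIX hi)
        · exact Finset.mem_coe.2 (ht' x hx').1
      obtain ⟨X', hX', hc, hind⟩ := hR V G _ (by omega) hfree
      exact hcon ⟨X', hX'.trans (Finset.filter_subset _ _), hc, hind⟩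
    have h5 : X.card ≤ I.card * (R + 1) :=
      (Finset.card_le_card hdom).trans (Finset.card_biUnion_le_card_mul _ _ _ hsmall)
    have h6 : I.card * (R + 1) ≤ m * (R + 1) := Nat.mul_le_mul_right _ hIm.le
    omega

/-- A graph without `k`-cliques and without an induced copy of the bipartite graph `F` has no large
shattered set. -/
theorem noShatter {α : Type} [Fintype α] (F : SimpleGraph α) (hF : F.Colorable 2) (k : ℕ) :
    ∃ N : ℕ, ∀ (V : Type) (G : SimpleGraph V) (X : Finset V), G.CliqueFree k →
      IsEmpty (F ↪g G) → Sh G X Set.univ → X.card < N := by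
  classical
  obtain ⟨s, hs⟩ := indepShatter k (Fintype.card α)
  obtain ⟨R, hR⟩ := ramsey k s
  refine ⟨R, ?_⟩
  intro V G X hfree hemp hSh
  by_contra hge
  push Not at hge
  obtain ⟨X1, hX1, hX1c, hX1i⟩ := hR V G X hge (fun t _ => hfree t)
  obtain ⟨X', hX', hX'c, Y', _, hSh', hYi⟩ := hs V G X1 Set.univ hX1c.ge (hSh.mono hX1)
    (fun t _ => hfree t)
  obtain ⟨c⟩ := hF
  have e : α ≃ X' := (Fintype.equivOfCardEq (by rw [Fintype.card_coe, hX'c]))
  have hadj0 : ∀ a b, F.Adj a b → ¬ (c a = 0 ↔ c b = 0) := by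
    intro a b hab hh
    have := c.valid hab
    apply this
    have ha := c a
    rcases Fin.exists_fin_two.1 ⟨c a, rfl⟩ with h | h <;>
      rcases Fin.exists_fin_two.1 ⟨c b, rfl⟩ with h' | h' <;> simp_all
  -- the vertex for a right element
  have hy : ∀ b : α, ∃ y ∈ Y', ∀ x ∈ X', (G.Adj y x ↔
      x ∈ X'.filter (fun x => ∃ a, ((e a : V) = x) ∧ (a = b ∨ (c a = 0 ∧ F.Adj a b)))) :=
    fun b => hSh' _ (Finset.filter_subset _ _)
  choose y hyY hy using hy
  have hyadj : ∀ a b, G.Adj (y b) (e a : V) ↔ (a = b ∨ (c a = 0 ∧ F.Adj a b)) := by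
    intro a b
    rw [hy b _ (e a).2, Finset.mem_filter]
    constructor
    · rintro ⟨_, a', ha', h⟩
      have : a' = a := e.injective (Subtype.ext ha')
      rw [← this]
      exact h
    · intro h
      exact ⟨(e a).2, a, rfl, h⟩
  have hXi : ∀ a b : α, ¬ G.Adj (e a : V) (e b : V) :=
    fun a b => hX1i _ (hX' (e a).2) _ (hX' (e b).2)
  have hyX : ∀ a b, (e a : V) ≠ y b := by
    intro a b hab
    have h1 : G.Adj (y b) (e b : V) := (hyadj b b).2 (Or.inl rfl)
    rw [← hab] at h1
    exact hXi a b h1
  refine hemp.false (α := F ↪g G) ⟨⟨fun a => if c a = 0 then (e a : V) else y a, ?_⟩, ?_⟩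
  · intro a b hab
    dsimp only at hab
    by_cases ha : c a = 0 <;> by_cases hb : c b = 0
    · rw [if_pos ha, if_pos hb] at hab
      exact e.injective (Subtype.ext hab)
    · rw [if_pos ha, if_neg hb] at hab
      exact absurd hab (hyX a b)
    · rw [if_neg ha, if_pos hb] at hab
      exact absurd hab.symm (hyX b a)
    · rw [if_neg ha, if_neg hb] at hab
      have h1 : G.Adj (y b) (e a : V) := by
        rw [← hab]
        exact (hyadj a a).2 (Or.inl rfl)
      rcases (hyadj a b).1 h1 with h2 | h2
      · exact h2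
      · exact absurd h2.1 ha
  · intro a b
    change G.Adj (if c a = 0 then (e a : V) else y a) (if c b = 0 then (e b : V) else y b) ↔
      F.Adj a b
    by_cases ha : c a = 0 <;> by_cases hb : c b = 0
    · rw [if_pos ha, if_pos hb]
      constructor
      · intro h
        exact absurd h (hXi a b)
      · intro h
        exact absurd (by simp [ha, hb]) (hadj0 a b h)
    · rw [if_pos ha, if_neg hb, G.adj_comm, hyadj a b]
      constructor
      · rintro (h | h)
        · exact absurd (h ▸ ha) hb
        · exact h.2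
      · intro h
        exact Or.inr ⟨ha, h⟩
    · rw [if_neg ha, if_pos hb, hyadj b a]
      constructor
      · rintro (h | h)
        · exact absurd (h ▸ hb) ha
        · exact h.2.symm
      · intro h
        exact Or.inr ⟨hb, h.symm⟩
    · rw [if_neg ha, if_neg hb]
      constructor
      · intro h
        exact absurd h (hYi _ (hyY a) _ (hyY b))
      · intro h
        exact absurd (by simp [ha, hb]) (hadj0 a b h)

end Pool.Agent.W259.GS
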